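import Pool.Agent.Results.MP_fe892a_gt.ClosedCounterexample

/-!
# Disjoint subcontinua with interior in a product of two indecomposable continua

`X` is the dyadic solenoid and `Y` is the triadic solenoid. The two closed strips
`‖x₀ - y₀‖ ≤ 1/8` and `‖x₀ - y₀ - 1/2‖ ≤ 1/8` in `X × Y` (where `x₀`, `y₀` are the projections to the
circle) are connected, since `2^n` and `3^n` are coprime; they are disjoint and both have interior
points.
-/

open Set Topology

namespace Pool.Agent.Results.MP_cdfe0d_gt.DisjointContinua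

/-- `K` is a subcontinuum of the space `S`: a nonempty compact connected subset. -/
def IsSubcontinuum {S : Type*} [TopologicalSpace S] (K : Set S) : Prop :=
  IsCompact K ∧ IsConnected K

/-- `X` is an indecomposable continuum: a nonempty compact connected Hausdorff space which is not
the union of two proper subcontinua. -/
def IsIndecomposableContinuum (X : Type*) [TopologicalSpace X] : Prop :=
  T2Space X ∧ CompactSpace X ∧ ConnectedSpace X ∧
    ¬ ∃ A B : Set X, IsSubcontinuum A ∧ IsSubcontinuum B ∧ A ≠ univ ∧ B ≠ univ ∧ A ∪ B = univ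

/-- Jones's set function `T`: the complement of the set of all points that lie in the interior of
a subcontinuum of `S` disjoint from `A`. -/
def jonesT {S : Type*} [TopologicalSpace S] (A : Set S) : Set S :=
  univ \ {p | ∃ K : Set S, IsSubcontinuum K ∧ p ∈ interior K ∧ K ∩ A = ∅}

open Pool.Agent.Results.MP_fe892a_gt.ClosedCounterexample
  (Sol Sol.line Sol.line_coord Sol.metrizable Sol.continuous_coord Sol.indecomposable
    isConnected_strip norm_half)

/-- the closed strip of width `δ` around the translate by `c` of the diagonal -/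
def strip (c δ : ℝ) : Set (Sol 2 × Sol 3) :=
  {z | ‖z.1.1 0 - z.2.1 0 - (c : UnitAddCircle)‖ ≤ δ}

theorem continuous_diff (c : ℝ) :
    Continuous fun z : Sol 2 × Sol 3 => ‖z.1.1 0 - z.2.1 0 - (c : UnitAddCircle)‖ :=
  ((((Sol.continuous_coord 0).comp continuous_fst).sub
    ((Sol.continuous_coord 0).comp continuous_snd)).sub continuous_const).norm

theorem isSubcontinuum_strip (c δ : ℝ) (hδ : 0 ≤ δ) : IsSubcontinuum (strip c δ) :=
  ⟨(isClosed_le (continuous_diff c) continuous_const).isCompact, isConnected_strip c δ hδ⟩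

theorem mem_interior_strip (c δ : ℝ) (hδ : 0 < δ) :
    ((Sol.line 2 two_ne_zero c, (0 : Sol 3)) : Sol 2 × Sol 3) ∈ interior (strip c δ) := by
  have ho : IsOpen {z : Sol 2 × Sol 3 | ‖z.1.1 0 - z.2.1 0 - (c : UnitAddCircle)‖ < δ} :=
    isOpen_lt (continuous_diff c) continuous_const
  have hsub : {z : Sol 2 × Sol 3 | ‖z.1.1 0 - z.2.1 0 - (c : UnitAddCircle)‖ < δ} ⊆ strip c δ :=
    fun z (hz : ‖z.1.1 0 - z.2.1 0 - (c : UnitAddCircle)‖ < δ) => hz.le
  refine interior_maximal hsub ho ?_
  show ‖(Sol.line 2 two_ne_zero c).1 0 - 0 - (c : UnitAddCircle)‖ < δ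
  rw [Sol.line_coord, pow_zero, div_one, sub_zero, sub_self, norm_zero]
  exact hδ

theorem strips_disjoint : strip (1 / 2) (1 / 8) ∩ strip 0 (1 / 8) = ∅ := by
  rw [eq_empty_iff_forall_notMem]
  rintro z ⟨h1, h2⟩
  have h1' : ‖z.1.1 0 - z.2.1 0 - ((1 / 2 : ℝ) : UnitAddCircle)‖ ≤ 1 / 8 := h1
  have h2' : ‖z.1.1 0 - z.2.1 0 - ((0 : ℝ) : UnitAddCircle)‖ ≤ 1 / 8 := h2
  have h3 : ((1 / 2 : ℝ) : UnitAddCircle) = (z.1.1 0 - z.2.1 0 - ((0 : ℝ) : UnitAddCircle)) -
      (z.1.1 0 - z.2.1 0 - ((1 / 2 : ℝ) : UnitAddCircle)) := by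
    rw [AddCircle.coe_zero]; abel
  have h4 : ‖((1 / 2 : ℝ) : UnitAddCircle)‖ ≤ 1 / 8 + 1 / 8 := by
    conv_lhs => rw [h3]
    exact (norm_sub_le _ _).trans (add_le_add h2' h1')
  rw [norm_half] at h4
  norm_num at h4

/-- **Theorem.** There are metrizable indecomposable continua `X`, `Y` (the 2-adic and the 3-adic
solenoid) and a subcontinuum `W` of `X × Y` with nonempty interior such that `T W ≠ X × Y`; in
fact some subcontinuum `K` of `X × Y` with nonempty interior is disjoint from `W`. -/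
theorem result : ∃ (X Y : Type) (_ : TopologicalSpace X) (_ : TopologicalSpace Y),
    IsIndecomposableContinuum X ∧ IsIndecomposableContinuum Y ∧
    TopologicalSpace.MetrizableSpace X ∧ TopologicalSpace.MetrizableSpace Y ∧
    ∃ W : Set (X × Y), IsSubcontinuum W ∧ (interior W).Nonempty ∧ jonesT W ≠ univ ∧
      ∃ K : Set (X × Y), IsSubcontinuum K ∧ (interior K).Nonempty ∧ K ∩ W = ∅ := by
  have hW := isSubcontinuum_strip 0 (1 / 8) (by norm_num)
  have hK := isSubcontinuum_strip (1 / 2) (1 / 8) (by norm_num)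
  refine ⟨Sol 2, Sol 3, inferInstance, inferInstance, Sol.indecomposable le_rfl,
    Sol.indecomposable (by norm_num), Sol.metrizable 2, Sol.metrizable 3, strip 0 (1 / 8), hW,
    ⟨_, mem_interior_strip 0 (1 / 8) (by norm_num)⟩, ?_,
    strip (1 / 2) (1 / 8), hK, ⟨_, mem_interior_strip (1 / 2) (1 / 8) (by norm_num)⟩,
    strips_disjoint⟩
  intro h
  have hp := mem_interior_strip (1 / 2) (1 / 8) (by norm_num)
  have h1 : ((Sol.line 2 two_ne_zero (1 / 2), (0 : Sol 3)) : Sol 2 × Sol 3) ∈
      jonesT (strip 0 (1 / 8)) := by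
    rw [h]; trivial
  exact h1.2 ⟨strip (1 / 2) (1 / 8), hK, hp, strips_disjoint⟩

end Pool.Agent.Results.MP_cdfe0d_gt.DisjointContinua
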